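import Pool.Agent.PolyTree.Density

/-!
# The density form: an approximate Erdős–Sós theorem with a polynomial error term

For all sufficiently large `m`, every graph with `N ≤ m ^ (31 / 30)` vertices and average degree at
least `m + m ^ (29 / 30)` contains every tree with `m` vertices.
-/

set_option autoImplicit false

namespace Pool.Agent.Results.MP_dd155b_co.PolynomialErdosSos

open Pool.Agent.PolyTree

/-- Every graph with `N ≤ m ^ (31 / 30)` vertices and average degree at least
`m + m ^ (29 / 30)` contains every tree with `m` vertices, if `m` is large. -/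
theorem result : ∃ m₀ : ℕ, ∀ m : ℕ, m₀ ≤ m →
    ∀ (V : Type) [Fintype V] (G : SimpleGraph V) [DecidableRel G.Adj],
    0 < Fintype.card V → (Fintype.card V : ℝ) ≤ (m : ℝ) ^ (31 / 30 : ℝ) →
    ((m : ℝ) + (m : ℝ) ^ (29 / 30 : ℝ)) * Fintype.card V ≤ 2 * G.edgeFinset.card →
    ∀ T : SimpleGraph (Fin m), T.IsTree →
      ∃ f : Fin m → V, Function.Injective f ∧ ∀ x y, T.Adj x y → G.Adj (f x) (f y) :=
  erdos_sos_rpow

end Pool.Agent.Results.MP_dd155b_co.PolynomialErdosSos
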