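import Pool.Agent.PolyTree.Ramsey2

/-!
# Multicolour Ramsey numbers of trees with a polynomial error term

For all sufficiently large `m`, all `k ≤ m ^ (1 / 100)` and all trees `T₁, ..., T_k` with at most
`m` vertices, `r(T₁, ..., T_k) ≤ ∑ |T_i| + m ^ (99 / 100)`. Moreover every colouring of the edges
of the complete graph on at least so many vertices has a colour `i` which contains all the trees
with as many vertices as `T_i`.
-/

set_option autoImplicit false

namespace Pool.Agent.Results.MP_dd155b_co.TreeRamseyPolynomial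

open Pool.Agent.PolyTree

/-- The multicolour Ramsey numbers of trees, with a polynomial error term which is uniform in the
trees and in the number of colours. -/
theorem result : ∃ m₀ : ℕ, ∀ m k : ℕ, m₀ ≤ m → 1 ≤ k →
    (k : ℝ) ≤ (m : ℝ) ^ (1 / 100 : ℝ) → ∀ n : Fin k → ℕ, (∀ i, n i ≤ m) →
    (∀ r : ℕ, ∑ i, (n i : ℝ) + (m : ℝ) ^ (99 / 100 : ℝ) ≤ r →
      ∀ c : Sym2 (Fin r) → Fin k, ∃ i : Fin k, ∀ T : SimpleGraph (Fin (n i)), T.IsTree →
        ∃ f : Fin (n i) → Fin r, Function.Injective f ∧ ∀ x y, T.Adj x y → c s(f x, f y) = i) ∧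
    ∀ T : ∀ i, SimpleGraph (Fin (n i)), (∀ i, (T i).IsTree) →
      Arrows (ramsey T) T ∧ (ramsey T : ℝ) ≤ ∑ i, (n i : ℝ) + (m : ℝ) ^ (99 / 100 : ℝ) :=
  ramsey_trees

end Pool.Agent.Results.MP_dd155b_co.TreeRamseyPolynomial
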